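import Pool.Agent.W2helper18.RX.Stm

/-!
Piece A of project RX: `∏_{p ∈ S} (1 + 1 / p) ≤ 1 + ∑_{p ∈ S} 1 / √p`. Induction on the largest element `p`: the
product over the primes less than `p` is at most `√p`, because only every second integer can be prime.
-/

set_option autoImplicit false

namespace Pool.Agent.W2helper71.RX

open Finset Pool.Agent.W2helper18.RX

lemma prod_even (k : ℕ) (hk : 2 ≤ k) :
    ∏ q ∈ (range (2 * k)).filter Nat.Prime, (1 + 1 / (q : ℝ)) ≤ √((2 * k : ℕ) : ℝ) := by
  induction k, hk using Nat.le_induction with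
  | base =>
    have h1 : (range (2 * 2)).filter Nat.Prime = {2, 3} := by decide
    rw [h1]
    have h2 : √((2 * 2 : ℕ) : ℝ) = 2 := by
      rw [show ((2 * 2 : ℕ) : ℝ) = 2 ^ 2 by norm_num]
      exact Real.sqrt_sq (by norm_num)
    rw [h2]
    norm_num
  | succ k hk ih =>
    have h2 : ¬ (2 * k).Prime := by
      intro h
      exact Nat.not_prime_mul (by norm_num) (by omega) h
    rw [show 2 * (k + 1) = 2 * k + 1 + 1 by ring, range_add_one, filter_insert, range_add_one,
      filter_insert, if_neg h2]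
    have hk0 : (0 : ℝ) < k := by exact_mod_cast (by omega : 0 < k)
    have h3 : √((2 * k : ℕ) : ℝ) * (1 + 1 / ((2 * k + 1 : ℕ) : ℝ)) ≤ √((2 * k + 1 + 1 : ℕ) : ℝ) := by
      apply Real.le_sqrt_of_sq_le
      rw [mul_pow, Real.sq_sqrt (by positivity)]
      push_cast
      have h4 : (1 + 1 / (2 * (k : ℝ) + 1)) = (2 * k + 2) / (2 * k + 1) := by
        field_simp
        ring
      rw [h4, div_pow, ← mul_div_assoc, div_le_iff₀ (by positivity)]
      nlinarith [sq_nonneg (k : ℝ), mul_pos hk0 hk0]
    have h5 : √((2 * k : ℕ) : ℝ) ≤ √((2 * k + 1 + 1 : ℕ) : ℝ) := by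
      apply Real.sqrt_le_sqrt
      push_cast
      linarith
    split_ifs with h
    · rw [prod_insert (by simp), mul_comm]
      exact (mul_le_mul_of_nonneg_right ih (by positivity)).trans h3
    · exact ih.trans h5

lemma prod_lt (p : ℕ) (hp : p.Prime) (S : Finset ℕ) (hS : ∀ q ∈ S, q.Prime) (hlt : ∀ q ∈ S, q < p) :
    ∏ q ∈ S, (1 + 1 / (q : ℝ)) ≤ √(p : ℝ) := by
  have hmono : ∀ T : Finset ℕ, S ⊆ T → ∏ q ∈ S, (1 + 1 / (q : ℝ)) ≤ ∏ q ∈ T, (1 + 1 / (q : ℝ)) := by
    intro T hT
    rw [← prod_sdiff hT]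
    have h1 : (1 : ℝ) ≤ ∏ q ∈ T \ S, (1 + 1 / (q : ℝ)) := by
      have : ∏ q ∈ T \ S, (1 : ℝ) ≤ ∏ q ∈ T \ S, (1 + 1 / (q : ℝ)) :=
        prod_le_prod (fun _ _ => zero_le_one) fun q _ => by
          have : (0 : ℝ) ≤ 1 / (q : ℝ) := by positivity
          linarith
      simpa using this
    exact le_mul_of_one_le_left (prod_nonneg fun q _ => by positivity) h1
  rcases hp.eq_two_or_odd' with h | h
  · subst h
    have h1 : S = ∅ := by
      rw [eq_empty_iff_forall_notMem]
      intro q hq
      have := (hS q hq).two_le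
      have := hlt q hq
      omega
    rw [h1, prod_empty]
    exact Real.one_le_sqrt.2 (by norm_num)
  · obtain ⟨k, rfl⟩ := h
    rcases Nat.lt_or_ge k 2 with hk | hk
    · have hk1 : k = 1 := by
        have := hp.two_le
        omega
      subst hk1
      have h1 : S ⊆ {2} := by
        intro q hq
        have := (hS q hq).two_le
        have := hlt q hq
        rw [mem_singleton]
        omega
      refine (hmono _ h1).trans ?_
      rw [prod_singleton]
      apply Real.le_sqrt_of_sq_le
      norm_num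
    · have h1 : S ⊆ (range (2 * k)).filter Nat.Prime := by
        intro q hq
        refine mem_filter.2 ⟨mem_range.2 ?_, hS q hq⟩
        have h2 := hlt q hq
        have h3 : q ≠ 2 * k := by
          rintro rfl
          exact Nat.not_prime_mul (by norm_num) (by omega) (hS _ hq)
        omega
      refine ((hmono _ h1).trans (prod_even k hk)).trans (Real.sqrt_le_sqrt ?_)
      push_cast
      linarith

theorem a : P_A := by
  refine ⟨1, le_rfl, fun S => ?_⟩
  rw [one_mul]
  induction S using Finset.induction_on_max with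
  | empty => intro _; simp
  | insert p S hp ih =>
    intro hS
    have hpS : p ∉ S := fun h => (hp p h).ne rfl
    have hpp : p.Prime := hS p (mem_insert_self _ _)
    have hS' : ∀ q ∈ S, q.Prime := fun q hq => hS q (mem_insert_of_mem hq)
    have hp0 : (0 : ℝ) < p := by exact_mod_cast hpp.pos
    rw [prod_insert hpS, sum_insert hpS]
    have h1 := prod_lt p hpp S hS' hp
    have h2 := ih hS'
    have h3 : √(p : ℝ) / p = 1 / √(p : ℝ) := Real.sqrt_div_self'
    have h4 : (∏ q ∈ S, (1 + 1 / (q : ℝ))) / p ≤ √(p : ℝ) / p :=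
      div_le_div_of_nonneg_right h1 hp0.le
    have h5 : (1 + 1 / (p : ℝ)) * ∏ q ∈ S, (1 + 1 / (q : ℝ)) =
        ∏ q ∈ S, (1 + 1 / (q : ℝ)) + (∏ q ∈ S, (1 + 1 / (q : ℝ))) / p := by ring
    rw [h5]
    linarith

end Pool.Agent.W2helper71.RX
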